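import Mathlib
import Pool.Agent.Q156.PW.Expect

/-!
# Permutation Wordle: the cyclic shift strategy is optimal for every number of rounds

Let `V_d` be the space of the functions on the permutations `w` of `{0, ..., n-1}` which are
spanned by the products `∏ (w i) ^ (b i)` with all `b i ≤ d`.

* For a strategy `S` and a permutation `σ` found in round `t + 1`, let `P_σ (w)` be the product of
  the factors `w i - γ_s i` over the rounds `s ≤ t` and the positions `i` at which the guess `γ_s`
  was wrong. Then `P_σ` lies in `V_t`, `P_σ (σ) ≠ 0`, and if `P_σ (w) ≠ 0` for `w ≠ σ`, then in the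
  first round in which the feedbacks of `w` and `σ` differ the feedback of `w` is a proper subset of
  the feedback of `σ`. So the functions `P_σ` are linearly independent, and the number `N_r (S)` of
  the permutations found within `r` rounds is at most `dim V_{r-1}`.
* If `d + d' ≤ n - 2`, then `∑_w sgn (w) f (w) g (w) = 0` for `f ∈ V_d`, `g ∈ V_{d'}` (a determinant
  with two equal columns). Hence `dim V_d + dim V_{d'} ≤ n!`, and `N_r (S) + N_{n-r} (T) ≤ n!` for
  any two strategies.
* The cyclic shift strategy finds `σ` within `1 + exc σ` rounds, and the number of exceedances has a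
  symmetric distribution. With `T` the cyclic shift strategy one gets `N_r (S) ≤ N_r (T)`.

The guesses of `S` may be arbitrary strings over the alphabet.
-/

namespace Pool.Agent.Results.MP_cf02e9_co.CyclicShiftOptimal

open Q156.PW
open scoped ENNReal

/-- Both questions. -/
theorem result (n : ℕ) (hn : 1 ≤ n) :
    (∃ B : PermStrategy n, IsCyclicShift B) ∧
    ∀ B : PermStrategy n, IsCyclicShift B →
      (∀ (S : Strategy n) (r : ℕ), winProb S r ≤ winProb B.toStrategy r) ∧
      (∀ S : Strategy n, ((n : ℝ≥0∞) + 1) / 2 ≤ expectedRounds S) ∧
      expectedRounds B.toStrategy = ((n : ℝ≥0∞) + 1) / 2 := by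
  refine ⟨⟨shiftStrategy n, isCyclicShift_shiftStrategy n⟩, fun B hB => ⟨fun S r => ?_,
    fun S => expected_ge hn S, le_antisymm (expected_shift_le hn hB) (expected_ge hn _)⟩⟩
  unfold winProb
  have h : winCount S r ≤ winCount B.toStrategy r :=
    (winCount_le_excCount hn S r).trans (excCount_le_winCount hB r)
  have hf : (0 : ℝ) ≤ (n.factorial : ℝ) := by positivity
  exact div_le_div_of_nonneg_right (by exact_mod_cast h) hf

end Pool.Agent.Results.MP_cf02e9_co.CyclicShiftOptimal
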